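import Pool.Agent.helper28.PV.SpecS

/-!
# Project pv, row HEP: the Hawaiian earring is path connected
-/

set_option autoImplicit false

open scoped Matrix Topology
open Filter

namespace Pool.Agent.PV

open Pool.Agent.CZ

theorem HEP_rep (x : HE) : ∃ (k : ℕ) (t : UnitAddCircle), x = inj k t := by
  by_cases h : ∀ k, x.1 k = 0
  · refine ⟨0, 0, ?_⟩
    apply Subtype.ext
    funext i
    change x.1 i = (Pi.single 0 0 : ℕ → UnitAddCircle) i
    rw [h i, Pi.single_zero]
    rfl
  · push Not at h
    obtain ⟨k, hk⟩ := h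
    refine ⟨k, x.1 k, ?_⟩
    apply Subtype.ext
    funext i
    change x.1 i = (Pi.single k (x.1 k) : ℕ → UnitAddCircle) i
    by_cases hi : i = k
    · rw [hi, Pi.single_eq_same]
    · rw [Pi.single_eq_of_ne hi]
      exact (x.2 i k hi).resolve_right hk

theorem HEP_base (k : ℕ) : inj k 0 = inj 0 0 := by
  apply Subtype.ext
  change (Pi.single k 0 : ℕ → UnitAddCircle) = Pi.single 0 0
  rw [Pi.single_zero, Pi.single_zero]

theorem HEP : HEP_stmt := by
  have h : ∀ x : HE, Joined (inj 0 0) x := by
    intro x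
    obtain ⟨k, t, rfl⟩ := HEP_rep x
    rw [← HEP_base k]
    exact (PathConnectedSpace.joined (0 : UnitAddCircle) t).map (inj k).continuous
  exact { nonempty := ⟨inj 0 0⟩, joined := fun x y => (h x).symm.trans (h y) }

end Pool.Agent.PV
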