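import Pool.Agent.helper28.PV.SpecS

/-!
# Project pv, row LAM: maps of the circle with disjoint supports, homotopic to the identity
-/

set_option autoImplicit false

open scoped Matrix Topology
open Filter

namespace Pool.Agent.PV

open Pool.Agent.CZ

/-- the piecewise linear function -/
noncomputable def LAM_mu (k : ℕ) (t : ℝ) : ℝ :=
  min 1 (max 0 ((t - 1 / ((k : ℝ) + 2)) / (1 / ((k : ℝ) + 1) - 1 / ((k : ℝ) + 2))))

theorem LAM_pos (k : ℕ) : (0 : ℝ) < 1 / ((k : ℝ) + 1) - 1 / ((k : ℝ) + 2) := by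
  have h : (0 : ℝ) ≤ k := Nat.cast_nonneg k
  have h1 : (1 : ℝ) / ((k : ℝ) + 2) < 1 / ((k : ℝ) + 1) :=
    one_div_lt_one_div_of_lt (by linarith) (by linarith)
  linarith

theorem LAM_low (k : ℕ) (t : ℝ) (ht : t ≤ 1 / ((k : ℝ) + 2)) : LAM_mu k t = 0 := by
  have h1 : (t - 1 / ((k : ℝ) + 2)) / (1 / ((k : ℝ) + 1) - 1 / ((k : ℝ) + 2)) ≤ 0 :=
    div_nonpos_of_nonpos_of_nonneg (by linarith) (LAM_pos k).le
  unfold LAM_mu
  rw [max_eq_left h1, min_eq_right zero_le_one]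

theorem LAM_high (k : ℕ) (t : ℝ) (ht : 1 / ((k : ℝ) + 1) ≤ t) : LAM_mu k t = 1 := by
  have h1 : 1 ≤ (t - 1 / ((k : ℝ) + 2)) / (1 / ((k : ℝ) + 1) - 1 / ((k : ℝ) + 2)) := by
    rw [le_div_iff₀ (LAM_pos k)]
    linarith
  unfold LAM_mu
  rw [min_eq_left]
  exact h1.trans (le_max_right _ _)

theorem LAM_cont (k : ℕ) : Continuous (LAM_mu k) := by
  unfold LAM_mu
  fun_prop

theorem LAM_zero (k : ℕ) : LAM_mu k 0 = 0 := LAM_low k 0 (by positivity)

theorem LAM_one (k : ℕ) : LAM_mu k 1 = 1 := by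
  apply LAM_high
  have h : (0 : ℝ) ≤ k := Nat.cast_nonneg k
  rw [div_le_one (by linarith)]
  linarith

/-- the displacement -/
noncomputable def LAM_del (k : ℕ) : C(UnitAddCircle, ℝ) :=
  ⟨AddCircle.liftIco 1 0 fun t => LAM_mu k t - t, by
    refine AddCircle.liftIco_continuous ?_ ?_
    · simp only [zero_add]
      rw [LAM_zero, LAM_one]
      ring
    · exact ((LAM_cont k).sub continuous_id).continuousOn⟩

theorem LAM_del_coe (k : ℕ) (t : ℝ) (ht : t ∈ Set.Ico (0 : ℝ) 1) :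
    LAM_del k (t : UnitAddCircle) = LAM_mu k t - t := by
  have ht' : t ∈ Set.Ico (0 : ℝ) (0 + 1) := by rwa [zero_add]
  exact AddCircle.liftIco_coe_apply (f := fun t : ℝ => LAM_mu k t - t) ht'

/-- the map of the circle -/
noncomputable def LAM_lam (k : ℕ) : C(UnitAddCircle, UnitAddCircle) :=
  ⟨fun x => x + ((LAM_del k x : ℝ) : UnitAddCircle),
    continuous_id.add ((AddCircle.continuous_mk' 1).comp (LAM_del k).continuous)⟩

theorem LAM_lam_coe (k : ℕ) (t : ℝ) (ht : t ∈ Set.Ico (0 : ℝ) 1) :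
    LAM_lam k (t : UnitAddCircle) = ((LAM_mu k t : ℝ) : UnitAddCircle) := by
  change (t : UnitAddCircle) + ((LAM_del k t : ℝ) : UnitAddCircle) = _
  rw [LAM_del_coe k t ht, ← AddCircle.coe_add]
  congr 1
  ring

theorem LAM_coe_one : ((1 : ℝ) : UnitAddCircle) = 0 := AddCircle.coe_period 1

theorem LAM_disj (k l : ℕ) (h : k < l) (t : ℝ) (h1 : 1 / ((k : ℝ) + 2) < t)
    (h2 : t < 1 / ((l : ℝ) + 1)) : False := by
  have h3 : (k : ℝ) + 1 ≤ l := by exact_mod_cast h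
  have h4 : (0 : ℝ) ≤ k := Nat.cast_nonneg k
  have h5 : (1 : ℝ) / ((l : ℝ) + 1) ≤ 1 / ((k : ℝ) + 2) :=
    one_div_le_one_div_of_le (by linarith) (by linarith)
  linarith

theorem LAM_cases (k : ℕ) (t : ℝ) (ht : t ∈ Set.Ico (0 : ℝ) 1) :
    LAM_lam k (t : UnitAddCircle) = 0 ∨ (1 / ((k : ℝ) + 2) < t ∧ t < 1 / ((k : ℝ) + 1)) := by
  rcases le_or_gt t (1 / ((k : ℝ) + 2)) with h | h
  · left
    rw [LAM_lam_coe k t ht, LAM_low k t h]
    rfl
  · rcases le_or_gt (1 / ((k : ℝ) + 1)) t with h' | h'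
    · left
      rw [LAM_lam_coe k t ht, LAM_high k t h']
      exact LAM_coe_one
    · right
      exact ⟨h, h'⟩

theorem LAM : LAM_stmt := by
  refine ⟨LAM_lam, LAM_del, ?_, ?_, ?_, fun k x => rfl⟩
  · intro k
    have h := LAM_lam_coe k 0 ⟨le_rfl, zero_lt_one⟩
    rw [LAM_zero] at h
    exact h
  · intro k y
    obtain ⟨s, ⟨hs0, hs1⟩, rfl⟩ := AddCircle.eq_coe_Ico (p := (1 : ℝ)) y
    have hp := LAM_pos k
    have h0 : (0 : ℝ) ≤ 1 / ((k : ℝ) + 2) := by positivity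
    have h1 : (1 : ℝ) / ((k : ℝ) + 1) ≤ 1 := by
      have h : (0 : ℝ) ≤ k := Nat.cast_nonneg k
      rw [div_le_one (by linarith)]
      linarith
    refine ⟨((1 / ((k : ℝ) + 2) + s * (1 / ((k : ℝ) + 1) - 1 / ((k : ℝ) + 2)) : ℝ) :
      UnitAddCircle), ?_⟩
    rw [LAM_lam_coe]
    · congr 1
      unfold LAM_mu
      rw [add_sub_cancel_left, mul_div_assoc, div_self hp.ne', mul_one, max_eq_right hs0,
        min_eq_right hs1.le]
    · constructor
      · have := mul_nonneg hs0 hp.le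
        linarith
      · have := mul_lt_mul_of_pos_right hs1 hp
        linarith
  · intro k l hkl x
    obtain ⟨t, ht, rfl⟩ := AddCircle.eq_coe_Ico (p := (1 : ℝ)) x
    rcases LAM_cases k t ht with h | ⟨h1, h2⟩
    · exact Or.inl h
    · rcases LAM_cases l t ht with h | ⟨h3, h4⟩
      · exact Or.inr h
      · exfalso
        rcases lt_or_gt_of_ne hkl with h | h
        · exact LAM_disj k l h t h1 h4
        · exact LAM_disj l k h t h3 h2

end Pool.Agent.PV
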