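import Pool.Agent.helper45.PV.SpecG

/-!
# Project pv, row K1A: `K₁` of the mapping cone, the component over `C` can be made equal to 1
-/

set_option autoImplicit false

open scoped Matrix Topology

namespace Pool.Agent.PV

open Pool.Agent.CZ

section

variable {C D : Type} [NormedRing C] [NormedAlgebra ℂ C] [NormedRing D] [NormedAlgebra ℂ D]

theorem K1A_mapOne {A B ι : Type} [NormedRing A] [NormedAlgebra ℂ A] [NormedRing B] [NormedAlgebra ℂ B]
    [Fintype ι] [DecidableEq ι] (f : A →ₐ[ℂ] B) : (1 : Matrix ι ι A).map f = 1 :=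
  map_one f.toRingHom.mapMatrix

theorem K1A_mapMul {A B ι : Type} [NormedRing A] [NormedAlgebra ℂ A] [NormedRing B] [NormedAlgebra ℂ B]
    [Fintype ι] [DecidableEq ι] (f : A →ₐ[ℂ] B) (M N : Matrix ι ι A) :
    (M * N).map f = M.map f * N.map f :=
  map_mul f.toRingHom.mapMatrix M N

/-- the value of the class of the `C`-component in `K₁(D)` is zero -/
theorem K1A_zero (hK1M : K1M_stmt) (hKC : KC_stmt) (φ : C →ₐ[ℂ] D) (χ : D →ₐ[ℂ] ℂ)
    (hφ : Continuous φ.toRingHom) {ι : Type} [Fintype ι] [DecidableEq ι]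
    (X : (Matrix ι ι (MC φ))ˣ) :
    k1map φ.toRingHom hφ (k1 (umap (gM φ).toRingHom X)) = 0 := by
  have e1 : k1map φ.toRingHom hφ (k1 (umap (gM φ).toRingHom X)) = k1 (umap (pM φ 1).toRingHom X) := by
    rw [k1map_k1]
    congr 1
    apply Units.ext
    exact (endM φ χ (X : Matrix ι ι (MC φ))).2.symm
  have e2 : k1 (umap (pM φ 0).toRingHom X) = k1 (umap (pM φ 1).toRingHom X) := by
    obtain ⟨h, hh⟩ := pthM φ (X : Matrix ι ι (MC φ))
    refine (hK1M D ι (umap (pM φ 0).toRingHom X) (umap (pM φ 1).toRingHom X)).2.2.2 ?_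
    refine ⟨h, fun t => ?_, hh 0, hh 1⟩
    rw [hh]
    exact ⟨umap (pM φ t).toRingHom X, rfl⟩
  have e3 : k1 (umap (pM φ 0).toRingHom X) =
      k1map (algebraMap ℂ D) (continuous_algebraMap ℂ D) (k1 (umap (eM φ χ).toRingHom X)) := by
    rw [k1map_k1]
    congr 1
    apply Units.ext
    exact (endM φ χ (X : Matrix ι ι (MC φ))).1
  rw [e1, ← e2, e3, hKC.2.2 (k1 (umap (eM φ χ).toRingHom X)), map_zero]

end

theorem K1A (hFUN : FUN_stmt) (hK1M : K1M_stmt) (hK1B : K1B_stmt) (hK1G : K1G_stmt) (hK1Z : K1Z_stmt)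
    (hKC : KC_stmt) (hCIN : CIN_stmt) : K1A_stmt := by
  have _ := hFUN
  intro C D _ _ _ _ _ _ φ χ hφ hχ hinj z
  obtain ⟨n, X₀, rfl⟩ := hK1G (MC φ) z
  have h0 : k1 (umap (gM φ).toRingHom X₀) = 0 := by
    apply hinj
    rw [K1A_zero hK1M hKC φ χ hφ X₀, map_zero]
  obtain ⟨k, g', hg', ξ, hξ, hξ0, hξ1⟩ := hK1Z C (Fin n) (umap (gM φ).toRingHom X₀) h0
  obtain ⟨ξ', hξ'⟩ := hCIN C unitInterval (Fin n ⊕ Fin k) ξ hξ
  have hφ' : Continuous φ := hφ
  -- the matrix `Z`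
  let h : C(unitInterval, Matrix (Fin n ⊕ Fin k) (Fin n ⊕ Fin k) D) :=
    ⟨fun s => (ξ (unitInterval.symm s)).map φ,
      (ξ.continuous.comp unitInterval.continuous_symm).matrix_map hφ'⟩
  let h' : C(unitInterval, Matrix (Fin n ⊕ Fin k) (Fin n ⊕ Fin k) D) :=
    ⟨fun s => (ξ' (unitInterval.symm s)).map φ,
      (ξ'.continuous.comp unitInterval.continuous_symm).matrix_map hφ'⟩
  have one' : ((1 : (Matrix (Fin n ⊕ Fin k) (Fin n ⊕ Fin k) C)ˣ) :
      Matrix (Fin n ⊕ Fin k) (Fin n ⊕ Fin k) C) = 1 := Units.val_one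
  obtain ⟨Z, hZ1, -, hZ3, hZ4⟩ := unM φ h h' g' 1
    (fun s => by
      change (ξ (unitInterval.symm s)).map φ * (ξ' (unitInterval.symm s)).map φ = 1
      rw [← K1A_mapMul, (hξ' _).1, K1A_mapOne])
    (fun s => by
      change (ξ' (unitInterval.symm s)).map φ * (ξ (unitInterval.symm s)).map φ = 1
      rw [← K1A_mapMul, (hξ' _).2, K1A_mapOne])
    (by
      change (ξ (unitInterval.symm 0)).map φ = _
      rw [unitInterval.symm_zero, hξ1, one', K1A_mapOne]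
      exact (map_one (algebraMap ℂ D).mapMatrix).symm)
    (by
      change (ξ (unitInterval.symm 1)).map φ = _
      rw [unitInterval.symm_one, hξ0])
  -- the path from `Z` to `1`
  have hσ : Continuous fun p : unitInterval × unitInterval =>
      unitInterval.symm (p.2 * unitInterval.symm p.1) :=
    unitInterval.continuous_symm.comp
      (continuous_snd.mul (unitInterval.continuous_symm.comp continuous_fst))
  have hpath : ∀ η : C(unitInterval, Matrix (Fin n ⊕ Fin k) (Fin n ⊕ Fin k) C), η 1 = 1 →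
      ∃ Γ : C(unitInterval, Matrix (Fin n ⊕ Fin k) (Fin n ⊕ Fin k) (MC φ)),
        (∀ t s, (Γ t).map (pM φ s) =
          (η (unitInterval.symm (s * unitInterval.symm t))).map φ) ∧ ∀ t, (Γ t).map (gM φ) = η t := by
    intro η hη
    refine exPM φ ⟨fun p => (η (unitInterval.symm (p.2 * unitInterval.symm p.1))).map φ,
      (η.continuous.comp hσ).matrix_map hφ'⟩ η (fun _ => 1) ?_ ?_
    · intro t
      change (η (unitInterval.symm (0 * unitInterval.symm t))).map φ = _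
      rw [zero_mul, unitInterval.symm_zero, hη, K1A_mapOne]
      exact (map_one (algebraMap ℂ D).mapMatrix).symm
    · intro t
      change (η (unitInterval.symm (1 * unitInterval.symm t))).map φ = _
      rw [one_mul, unitInterval.symm_symm]
  obtain ⟨Γ, hΓ, hΓg⟩ := hpath ξ (by rw [hξ1, one'])
  have hξ'1 : ξ' 1 = 1 := by
    have := (hξ' 1).1
    rw [hξ1, one', one_mul] at this
    exact this
  obtain ⟨Γ', hΓ', hΓg'⟩ := hpath ξ' hξ'1
  have hΓu : ∀ t, IsUnit (Γ t) := by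
    intro t
    refine ⟨⟨Γ t, Γ' t, ?_, ?_⟩, rfl⟩
    · refine extM φ _ _ (fun s => ?_) ?_
      · rw [K1A_mapMul, hΓ, hΓ', ← K1A_mapMul, (hξ' _).1, K1A_mapOne, K1A_mapOne]
      · rw [K1A_mapMul, hΓg, hΓg', (hξ' _).1, K1A_mapOne]
    · refine extM φ _ _ (fun s => ?_) ?_
      · rw [K1A_mapMul, hΓ, hΓ', ← K1A_mapMul, (hξ' _).2, K1A_mapOne, K1A_mapOne]
      · rw [K1A_mapMul, hΓg, hΓg', (hξ' _).2, K1A_mapOne]
  have hZ0 : k1 Z = 0 := by
    have h1 := hK1M (MC φ) (Fin n ⊕ Fin k) Z 1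
    rw [h1.2.2.2 ⟨Γ, hΓu, ?_, ?_⟩, h1.2.2.1]
    · refine extM φ _ _ (fun s => ?_) ?_
      · rw [hΓ, hZ1, unitInterval.symm_zero, mul_one]
        rfl
      · rw [hΓg, hZ3, hξ0]
    · refine extM φ _ _ (fun s => ?_) ?_
      · rw [hΓ, unitInterval.symm_one, mul_zero, unitInterval.symm_zero, hξ1, one', K1A_mapOne]
        exact (K1A_mapOne (pM φ s)).symm
      · rw [hΓg, hξ1, one']
        exact (K1A_mapOne (gM φ)).symm
  -- the matrix `X₀ ⊕ 1`
  have hb : ∀ M N : Matrix (Fin n) (Fin n) (MC φ), M * N = 1 →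
      Matrix.fromBlocks M 0 0 (1 : Matrix (Fin k) (Fin k) (MC φ)) * Matrix.fromBlocks N 0 0 1 = 1 := by
    intro M N hMN
    rw [Matrix.fromBlocks_multiply]
    simp only [Matrix.mul_zero, Matrix.zero_mul, Matrix.mul_one, add_zero, zero_add, hMN]
    exact Matrix.fromBlocks_one
  let X₁ : (Matrix (Fin n ⊕ Fin k) (Fin n ⊕ Fin k) (MC φ))ˣ :=
    ⟨Matrix.fromBlocks (X₀ : Matrix (Fin n) (Fin n) (MC φ)) 0 0 1,
      Matrix.fromBlocks ((X₀⁻¹ : (Matrix (Fin n) (Fin n) (MC φ))ˣ) : Matrix (Fin n) (Fin n) (MC φ)) 0 0 1,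
      hb _ _ X₀.mul_inv, hb _ _ X₀.inv_mul⟩
  have hX₁ : k1 X₁ = k1 X₀ := by
    rw [hK1B (MC φ) (Fin n) (Fin k) X₀ 1 X₁ rfl,
      (hK1M (MC φ) (Fin k) 1 1).2.2.1, add_zero]
  refine ⟨Fin n ⊕ Fin k, inferInstance, inferInstance, X₁ * Z⁻¹, ?_, ?_⟩
  · rw [(hK1M (MC φ) _ X₁ Z⁻¹).1, (hK1M (MC φ) _ Z Z).2.1, hZ0, neg_zero, add_zero, hX₁]
  · have e1 : ((X₁ * Z⁻¹ : (Matrix (Fin n ⊕ Fin k) (Fin n ⊕ Fin k) (MC φ))ˣ) :
        Matrix (Fin n ⊕ Fin k) (Fin n ⊕ Fin k) (MC φ)) =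
        (X₁ : Matrix (Fin n ⊕ Fin k) (Fin n ⊕ Fin k) (MC φ)) *
          ((Z⁻¹ : (Matrix (Fin n ⊕ Fin k) (Fin n ⊕ Fin k) (MC φ))ˣ) :
            Matrix (Fin n ⊕ Fin k) (Fin n ⊕ Fin k) (MC φ)) := Units.val_mul _ _
    rw [e1, K1A_mapMul, hZ4]
    have e2 : (X₁ : Matrix (Fin n ⊕ Fin k) (Fin n ⊕ Fin k) (MC φ)).map (gM φ) =
        (g' : Matrix (Fin n ⊕ Fin k) (Fin n ⊕ Fin k) C) := by
      rw [hg']
      change (Matrix.fromBlocks (X₀ : Matrix (Fin n) (Fin n) (MC φ)) 0 0 1).map (gM φ) = _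
      rw [Matrix.fromBlocks_map, K1A_mapOne]
      rw [Matrix.map_zero _ (map_zero (gM φ)), Matrix.map_zero _ (map_zero (gM φ))]
      rfl
    rw [e2]
    exact g'.mul_inv

end Pool.Agent.PV
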