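import Pool.Agent.helper45.PV.SpecG

/-!
# Project pv, row WDK: K-theory of the wedge
-/

set_option autoImplicit false

open scoped Matrix Topology

namespace Pool.Agent.PV

open Pool.Agent.CZ

theorem WDK_comp {A B C : Type} [Ring A] [Ring B] [Ring C] (hFUN : FUN_stmt) (φ : A →+* B)
    (ψ : B →+* C) (χ : A →+* C) (h : ∀ x, ψ (φ x) = χ x) (z : K0 A) :
    k0map ψ (k0map φ z) = k0map χ z := by
  have e : ψ.comp φ = χ := RingHom.ext h
  subst e
  exact (hFUN.2.1 A B C φ ψ z).symm

theorem WDK (hFUN : FUN_stmt) (hSX0 : SX0_stmt) (hSX1 : SX1_stmt) (hWSP : WSP_stmt) : WDK_stmt := by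
  intro Y₀ Y₁ _ _ _ _ _ _ _ _ y₀ y₁ h0 h1
  obtain ⟨Y, iY1, iY2, iY3, iY4, y, j, e, r, hs, hj, hr⟩ := hWSP Y₀ Y₁ y₀ y₁
  refine ⟨Y, iY1, iY2, iY3, iY4, y, ?_, ?_⟩
  · have hev : ∀ x : K0 C(Y₀, ℂ), k0map (evC ℂ y).toRingHom (k0map r.toRingHom x) =
        k0map (evC ℂ y₀).toRingHom x := WDK_comp hFUN _ _ _ hr
    have hevj : ∀ x : K0 C(Y₁, ℂ), k0map (evC ℂ y).toRingHom (k0map j.toRingHom x) =
        k0map (evC ℂ y₁).toRingHom x := WDK_comp hFUN _ _ _ hj
    let Φ : (k0map (evC ℂ y₀).toRingHom).ker →+ (k0map (evC ℂ y).toRingHom).ker :=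
      ((k0map r.toRingHom).comp (k0map (evC ℂ y₀).toRingHom).ker.subtype).codRestrict _
        (fun x => by
          rw [AddMonoidHom.mem_ker]
          exact (hev x.1).trans x.2)
    have hΦ : Function.Bijective Φ := by
      constructor
      · rw [injective_iff_map_eq_zero]
        intro x hx
        have h2 : k0map r.toRingHom x.1 = 0 := congrArg Subtype.val hx
        have h3 : k0map e.toRingHom (k0map r.toRingHom x.1) = x.1 := by
          rw [WDK_comp hFUN r.toRingHom e.toRingHom (RingHom.id _) hs.er]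
          exact hFUN.1 _ _
        rw [h2, map_zero] at h3
        exact Subtype.ext h3.symm
      · intro z
        obtain ⟨x, y', hy', hz⟩ := (hSX0 C(Y₁, ℂ) C(Y, ℂ) C(Y₀, ℂ) j e r (evC ℂ y₀) hs).1 z.1
        have h2 : k0map (evC ℂ y).toRingHom z.1 = 0 := z.2
        rw [hz, map_add, hevj, hev, hy', add_zero] at h2
        have h3 := h0 x h2
        refine ⟨⟨y', hy'⟩, ?_⟩
        apply Subtype.ext
        change k0map r.toRingHom y' = z.1
        rw [hz, h3, map_zero, zero_add]
    exact ⟨(AddEquiv.ofBijective Φ hΦ).symm⟩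
  · have hjc : Continuous j.toRingHom :=
      AddMonoidHomClass.continuous_of_bound j.toRingHom 1 fun f => by
        rw [one_mul]
        exact (hs.iso f).le
    have hrc : Continuous r.toRingHom := hs.cr
    have hX := hSX1 C(Y₁, ℂ) C(Y, ℂ) C(Y₀, ℂ) j e r hjc hrc hs
    have hb : Function.Bijective (k1map j.toRingHom hjc) := by
      constructor
      · rw [injective_iff_map_eq_zero]
        intro x hx
        exact (hX.2 x 0 (by rw [hx, map_zero, add_zero])).1
      · intro z
        obtain ⟨x, y', hz⟩ := hX.1 z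
        refine ⟨x, ?_⟩
        rw [hz, h1 y', map_zero, add_zero]
    exact ⟨(AddEquiv.ofBijective _ hb).symm⟩

end Pool.Agent.PV
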