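import Pool.Agent.helper77.PV.SpecK

/-!
# Project pv, row KC1: `K₁` of a Cantor crossed product
-/

set_option autoImplicit false

open scoped Matrix Topology
open Filter

namespace Pool.Agent.PV

open Pool.Agent.CZ Pool.Agent.PVH

/-- The class of an idempotent matrix over `Fin n` as a class `k0`. -/
theorem KC1_cls {A : Type} [Ring A] (p : IdemMat A) : cls p = k0 p.e p.idem := by
  let σ := Fintype.equivFin (Fin p.n)
  have h : cls p - k0 p.e p.idem = 0 := by
    change QuotientAddGroup.mk (FreeAbelianGroup.of p - FreeAbelianGroup.of _) = (0 : K0 A)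
    rw [QuotientAddGroup.eq_zero_iff]
    refine AddSubgroup.subset_closure (Or.inl ⟨p, _, ⟨p.e.submatrix id σ.symm,
      p.e.submatrix σ.symm id, ?_, ?_⟩, rfl⟩)
    · rw [Matrix.submatrix_mul_equiv, p.idem, Matrix.submatrix_id_id]
    · change p.e.submatrix σ.symm (Equiv.refl _) * p.e.submatrix (Equiv.refl _) σ.symm = _
      rw [Matrix.submatrix_mul_equiv, p.idem]
  exact sub_eq_zero.1 h

theorem KC1_ind {A : Type} [Ring A] (P : K0 A → Prop) (h0 : P 0) (hc : ∀ p, P (cls p))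
    (hn : ∀ z, P z → P (-z)) (ha : ∀ z w, P z → P w → P (z + w)) (z : K0 A) : P z := by
  induction z using QuotientAddGroup.induction_on with
  | H w =>
    induction w using FreeAbelianGroup.induction_on with
    | zero => exact h0
    | of p => exact hc p
    | neg p hp => exact hn _ (hc p)
    | add x y hx hy => exact ha _ _ hx hy

theorem KC1 (hRNK : RNK_stmt) (hKT0 : KT0_stmt) (hKT1 : KT1_stmt) (hPVS : PVS_stmt) (hDZP : DZP_stmt)
    (hFUN : FUN_stmt) (hK0G : K0G_stmt) : KC1_stmt := by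
  have _ := hFUN
  have _ := hK0G
  intro Ω _ _ _ _ _ s hconst A _ ι u c hcov
  obtain ⟨R, hR⟩ := hRNK Ω
  have hbij := hKT0 Ω R hR
  have hZ := hDZP Ω s A ι u c hcov
  have hi : Continuous ι.toAlgHom.toRingHom :=
    AddMonoidHomClass.continuous_of_bound ι.toAlgHom.toRingHom 1 fun f => by
      rw [one_mul]
      exact (hZ.isoA f).le
  have ha : Continuous (alC s : C(Ω, ℂ) →ₐ[ℂ] C(Ω, ℂ)).toRingHom :=
    AddMonoidHomClass.continuous_of_bound (alC s : C(Ω, ℂ) →ₐ[ℂ] C(Ω, ℂ)).toRingHom 1 fun f => by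
      rw [one_mul]
      exact (hZ.isoB f).le
  obtain ⟨d1, d0, -, -, -, -, -, -, hk1, hr1, -⟩ := hPVS C(Ω, ℂ) A (alC s) ι.toAlgHom
    (Unitary.toUnits u) c hi ha hZ
  -- naturality of the rank
  have hnat : ∀ (z : K0 C(Ω, ℂ)) (x : Ω), R (k0a (alC s) z) x = R z (s.symm x) := by
    intro z
    refine KC1_ind (fun z => ∀ x : Ω, R (k0a (alC s) z) x = R z (s.symm x)) ?_ ?_ ?_ ?_ z
    · intro x
      rw [map_zero, map_zero]
      rfl
    · intro p x
      have h1 : k0a (alC s) (cls p) = cls (imap (alC s : C(Ω, ℂ) →ₐ[ℂ] C(Ω, ℂ)).toRingHom p) := rfl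
      have h2 : ((R (cls (imap (alC s : C(Ω, ℂ) →ₐ[ℂ] C(Ω, ℂ)).toRingHom p)) x : ℤ) : ℂ) =
          ((R (cls p) (s.symm x) : ℤ) : ℂ) := by
        rw [KC1_cls, KC1_cls, hR, hR]
        rfl
      rw [h1]
      exact_mod_cast h2
    · intro z hz x
      rw [map_neg, map_neg, map_neg, ContinuousMap.neg_apply, ContinuousMap.neg_apply, hz]
    · intro z w hz hw x
      rw [map_add, map_add, map_add, ContinuousMap.add_apply, ContinuousMap.add_apply, hz, hw]
  let x₀ : Ω := Classical.arbitrary Ω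
  let ev : C(Ω, ℤ) →+ ℤ := { toFun := fun f => f x₀, map_zero' := rfl, map_add' := fun _ _ => rfl }
  let F : K1 A →+ ℤ := ev.comp (R.comp d1)
  have hF : ∀ y, F y = R (d1 y) x₀ := fun _ => rfl
  have hinj : Function.Injective F := by
    rw [injective_iff_map_eq_zero]
    intro y hy
    have h1 : k0a (alC s) (d1 y) = d1 y := (hr1 _).2 ⟨y, rfl⟩
    obtain ⟨n, hn⟩ := hconst (R (d1 y)) (by
      intro x
      have h2 := hnat (d1 y) (s x)
      rw [h1, Homeomorph.symm_apply_apply] at h2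
      exact h2)
    have h2 : R (d1 y) = 0 := by
      ext x
      rw [hn x, ← hn x₀, ← hF, hy]
      rfl
    have h3 : d1 y = 0 := hbij.1 (by rw [h2, map_zero])
    obtain ⟨w, rfl⟩ := (hk1 y).1 h3
    rw [hKT1 Ω w, map_zero]
  have hsur : Function.Surjective F := by
    intro n
    obtain ⟨z, hz⟩ := hbij.2 (ContinuousMap.const Ω n)
    have h1 : k0a (alC s) z = z := by
      apply hbij.1
      ext x
      rw [hnat, hz]
      rfl
    obtain ⟨y, hy⟩ := (hr1 z).1 h1
    refine ⟨y, ?_⟩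
    rw [hF, hy, hz]
    rfl
  exact ⟨AddEquiv.ofBijective F ⟨hinj, hsur⟩⟩

end Pool.Agent.PV
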