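import Pool.Agent.helper77.PV.SpecK

/-!
# Project pv, row KCH: the invariant of a Cantor crossed product
-/

set_option autoImplicit false

open scoped Matrix Topology
open Filter

namespace Pool.Agent.PV

open Pool.Agent.CZ Pool.Agent.PVH

theorem KCH (hJKT : JKT_stmt) (hJPR : JPR_stmt) (hKC0 : KC0_stmt) (hKC1 : KC1_stmt) : KCH_stmt := by
  intro E _ _ _ K H _ ρ g Ω _ _ _ _ _ s Q T hmin hdim hconst hT hTρ hTa hTi hTs A _ ι u c hcov
  let φt : K → InvSt s := fun t => ⟨T t, (hT t).nonneg, (hT t).one, (hT t).inv⟩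
  have hbij : Function.Bijective φt := by
    constructor
    · intro a b hab
      exact hTi (congrArg InvSt.φ hab)
    · intro φ
      obtain ⟨t, ht⟩ := hTs φ.φ ⟨φ.nonneg, φ.one, φ.inv⟩
      refine ⟨t, ?_⟩
      cases φ
      subst ht
      rfl
  obtain ⟨τ, hτ, h1, h2⟩ := hJKT Ω s A ι u c hcov hmin E K φt hbij (fun g => hTa g)
  obtain ⟨ψ, R, hR, hψ, hsurj, hone⟩ := hKC0 H (KP K ρ) g Ω s Q hdim A ι u c hcov
  have : Nonempty Ω := inferInstance
  obtain ⟨e⟩ := hKC1 Ω s hconst A ι u c hcov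
  refine ⟨ψ, e, τ, hone, hτ, h2, ?_⟩
  intro t z
  obtain ⟨w, rfl⟩ := hsurj z
  have hc0 : ∀ f : C(Ω, ℂ), c 0 (ι f) = f := by
    intro f
    have h3 := hcov.cval 0 0 f
    rw [if_pos rfl] at h3
    have h4 : up u 0 = 1 := by simp [up]
    rw [h4, mul_one] at h3
    exact h3
  rw [hJPR Ω s A ι (τ t) (φt t) (fun f => by rw [h1, hc0]) w, hψ]
  have hre : reC (trC C(Ω, ℂ) w) = intR (R w) := by
    ext x
    change (trC C(Ω, ℂ) w x).re = ((R w x : ℤ) : ℝ)
    rw [← hR w x]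
    simp
  have him : imC (trC C(Ω, ℂ) w) = 0 := by
    ext x
    change (trC C(Ω, ℂ) w x).im = 0
    rw [← hR w x]
    simp
  apply Complex.ext
  · change T t (reC (trC C(Ω, ℂ) w)) = _
    rw [hre, hTρ, Complex.ofReal_re]
  · change T t (imC (trC C(Ω, ℂ) w)) = _
    rw [him, map_zero, Complex.ofReal_im]

end Pool.Agent.PV
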