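import Pool.Agent.helper77.PV.SpecA

/-!
# Project pv, row MS1: multi-split algebras, `K₁`
-/

set_option autoImplicit false

namespace Pool.Agent.PV

open Pool.Agent.CZ

theorem MS1_comp (hFUN : FUN_stmt) {A B C : Type} [Ring A] [Ring B] [Ring C] [TopologicalSpace A]
    [TopologicalSpace B] [TopologicalSpace C] (φ : A →+* B) (ψ : B →+* C) (χ : A →+* C)
    (hφ : Continuous φ) (hψ : Continuous ψ) (hχ : Continuous χ) (h : ∀ x, ψ (φ x) = χ x) (z : K1 A) :
    k1map ψ hψ (k1map φ hφ z) = k1map χ hχ z := by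
  have e : ψ.comp φ = χ := RingHom.ext h
  subst e
  exact (hFUN.2.2.2.2 A B C φ ψ hφ hψ hχ z).symm

theorem MS1 (hMSF : MSF_stmt) (hMF1 : MF1_stmt) (hCS1 : CS1_stmt) (hCI1 : CI1_stmt) (hFUN : FUN_stmt) :
    MS1_stmt := by
  intro I C₀ C D _ _ _ _ _ _ _ _ _ j e r hj hr h
  classical
  obtain ⟨hcl, hd, hM, -⟩ := hMSF I C₀ C D j e r h
  have hval : ∀ F, Continuous (mS e F).val.toRingHom := fun F => continuous_subtype_val
  let G : I → K1 D → K1 C := fun k v => k1map (r k).toRingHom (hr k) v
  have hG0 : ∀ k, G k 0 = 0 := fun k => map_zero _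
  have hGa : ∀ k a b, G k (a + b) = G k a + G k b := fun k a b => map_add _ _ _
  refine ⟨?_, ?_⟩
  · intro z
    obtain ⟨F, w, hw⟩ := hCS1 C I (mS e) hM hcl hd z
    obtain ⟨jF, rF, hjF, hrF, e1, e2, hsur, -⟩ := hMF1 I C₀ C D j e r h F
    obtain ⟨x, y, rfl⟩ := hsur w
    refine ⟨x, ∑ k : F, Finsupp.single (k : I) (y k), ?_⟩
    have h1 : z = k1map (mS e F).val.toRingHom (hval F)
      (k1map jF.toRingHom hjF x + ∑ k : F, k1map (rF k).toRingHom (hrF k) (y k)) := hw
    rw [map_add, map_sum] at h1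
    have h2 : (∑ k : F, Finsupp.single (k : I) (y k)).sum G = ∑ k : F, G k (y k) := by
      rw [← Finsupp.sum_finsetSum_index hG0 hGa]
      refine Finset.sum_congr rfl fun k _ => ?_
      exact Finsupp.sum_single_index (hG0 _)
    change z = k1map j.toRingHom hj x + (∑ k : F, Finsupp.single (k : I) (y k)).sum G
    rw [h1, h2]
    congr 1
    · exact MS1_comp hFUN _ _ _ _ _ _ e1 x
    · refine Finset.sum_congr rfl fun k _ => ?_
      exact MS1_comp hFUN _ _ _ _ _ _ (e2 k) (y k)
  · intro x Y hxy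
    obtain ⟨jF, rF, hjF, hrF, e1, e2, -, -⟩ := hMF1 I C₀ C D j e r h Y.support
    have hsum : Y.sum G = ∑ k : Y.support, G k (Y k) :=
      (Finset.sum_coe_sort Y.support fun k => G k (Y k)).symm
    have h1 : k1map (mS e Y.support).val.toRingHom (hval Y.support)
        (k1map jF.toRingHom hjF x + ∑ k : Y.support, k1map (rF k).toRingHom (hrF k) (Y k)) = 0 := by
      rw [map_add, map_sum]
      change k1map j.toRingHom hj x + Y.sum G = 0 at hxy
      rw [← hxy, hsum]
      congr 1
      · exact MS1_comp hFUN _ _ _ _ _ _ e1 x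
      · refine Finset.sum_congr rfl fun k _ => ?_
        exact MS1_comp hFUN _ _ _ _ _ _ (e2 k) (Y k)
    obtain ⟨F', hF', h2⟩ := hCI1 C I (mS e) hM hcl hd Y.support _ h1
    have hc : Continuous (Subalgebra.inclusion (hM hF')).toRingHom :=
      Continuous.subtype_mk continuous_subtype_val _
    have h3 := h2 hc
    obtain ⟨jF', rF', hjF', hrF', e1', e2', -, hinj⟩ := hMF1 I C₀ C D j e r h F'
    rw [map_add, map_sum] at h3
    have h4 := hinj x (fun k => Y k) (by
      rw [← h3]
      congr 1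
      · refine (MS1_comp hFUN _ _ _ _ _ _ (fun c => ?_) x).symm
        apply Subtype.ext
        exact (e1 c).trans (e1' c).symm
      · have h5 : ∀ k : Y.support, k1map (Subalgebra.inclusion (hM hF')).toRingHom hc
            (k1map (rF k).toRingHom (hrF k) (Y k)) =
            k1map (rF' ⟨k, hF' k.2⟩).toRingHom (hrF' ⟨k, hF' k.2⟩) (Y k) := by
          intro k
          refine MS1_comp hFUN _ _ _ _ _ _ (fun c => ?_) (Y k)
          apply Subtype.ext
          exact (e2 k c).trans (e2' ⟨k, hF' k.2⟩ c).symm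
        rw [Finset.sum_congr rfl fun k _ => h5 k]
        let g : I → K1 (mS e F') := fun k =>
          if hk : k ∈ F' then k1map (rF' ⟨k, hk⟩).toRingHom (hrF' ⟨k, hk⟩) (Y k) else 0
        have h6 : ∑ k : F', k1map (rF' k).toRingHom (hrF' k) (Y k) = ∑ k ∈ F', g k := by
          rw [← Finset.sum_coe_sort F' g]
          refine Finset.sum_congr rfl fun k _ => ?_
          change _ = dite _ _ _
          rw [dif_pos k.2]
        have h7 : ∑ k : Y.support, k1map (rF' ⟨k, hF' k.2⟩).toRingHom (hrF' ⟨k, hF' k.2⟩) (Y k) =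
            ∑ k ∈ Y.support, g k := by
          rw [← Finset.sum_coe_sort Y.support g]
          refine Finset.sum_congr rfl fun k _ => ?_
          change _ = dite _ _ _
          rw [dif_pos (hF' k.2)]
        rw [h6, h7]
        symm
        refine Finset.sum_subset hF' fun k hk hk' => ?_
        change dite _ _ _ = _
        rw [dif_pos hk, Finsupp.notMem_support_iff.1 hk', map_zero])
    refine ⟨h4.1, ?_⟩
    ext k
    by_cases hk : k ∈ Y.support
    · exact congrFun h4.2 ⟨k, hF' hk⟩
    · exact Finsupp.notMem_support_iff.1 hk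

end Pool.Agent.PV
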