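import Pool.Agent.helper77.PV.SpecB

/-!
# Project pv, row QDM: the q-lemma for matrices
-/

set_option autoImplicit false

open scoped Matrix Topology
open Filter

namespace Pool.Agent.PV

open Pool.Agent.CZ

attribute [local instance] Matrix.linftyOpNormedRing Matrix.linftyOpNormedAlgebra

theorem QDM (hZM : ZM_stmt) (hQD : QD_stmt) : QDM_stmt := by
  intro B A _ _ _ _ _ _ al io u c hP κ _ _ a b L hL
  have h1 : @CompleteSpace (Matrix κ κ B)
      (Matrix.linftyOpNormedRing (n := κ) (α := B)).toMetricSpace.toPseudoMetricSpace.toUniformSpace :=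
    (inferInstance : CompleteSpace (κ → κ → B))
  have h2 : @CompleteSpace (Matrix κ κ A)
      (Matrix.linftyOpNormedRing (n := κ) (α := A)).toMetricSpace.toPseudoMetricSpace.toUniformSpace :=
    (inferInstance : CompleteSpace (κ → κ → A))
  exact hQD (Matrix κ κ B) (Matrix κ κ A) al.mapMatrix io.mapMatrix (uM κ u)
    (fun n => (c n).mapMatrix) (hZM B A al io u c hP κ) a b L hL

end Pool.Agent.PV
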