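import Pool.Agent.helper77.PV.SpecB

/-!
# Project pv, row QS: the coefficients of the inverse of `a + b u`
-/

set_option autoImplicit false

open scoped Matrix Topology
open Filter

namespace Pool.Agent.PV

open Pool.Agent.CZ

theorem QS_iso {B : Type} [NormedRing B] [NormedAlgebra ℂ B] (al : B ≃ₐ[ℂ] B) (h : ∀ b, ‖al b‖ = ‖b‖)
    (k : ℤ) (b : B) : ‖(al ^ k) b‖ = ‖b‖ := by
  induction k using Int.induction_on generalizing b with
  | zero => rw [zpow_zero]; rfl
  | succ k ih =>
    rw [zpow_add_one]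
    change ‖(al ^ (k : ℤ)) (al b)‖ = ‖b‖
    rw [ih, h]
  | pred k ih =>
    rw [zpow_sub_one]
    change ‖(al ^ (-(k : ℤ))) (al.symm b)‖ = ‖b‖
    rw [ih, ← h, AlgEquiv.apply_symm_apply]

/-- A sequence indexed by the integers with the given jumps, which tends to `0` at `-∞`. -/
theorem QS_jump {B : Type} [NormedRing B] (f : ℤ → B) (T : B) (N : ℤ)
    (hf : ∀ m, f m - f (m - 1) = (if m = N then T else 0) - (if m = 0 then T else 0))
    (hl : Tendsto f atBot (𝓝 0)) (m : ℤ) :
    f m = (if N ≤ m then T else 0) - (if 0 ≤ m then T else 0) := by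
  have h1 : ∀ m : ℤ, (f m - ((if N ≤ m then T else 0) - (if 0 ≤ m then T else 0))) -
      (f (m - 1) - ((if N ≤ m - 1 then T else 0) - (if 0 ≤ m - 1 then T else 0))) = 0 := by
    intro m
    have e : (f m - ((if N ≤ m then T else 0) - (if 0 ≤ m then T else 0))) -
      (f (m - 1) - ((if N ≤ m - 1 then T else 0) - (if 0 ≤ m - 1 then T else 0))) =
      (f m - f (m - 1)) - (((if N ≤ m then T else 0) - (if N ≤ m - 1 then T else 0)) -
        ((if 0 ≤ m then T else 0) - (if 0 ≤ m - 1 then T else 0))) := by abel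
    have e2 : ∀ K : ℤ, (if K ≤ m then T else 0) - (if K ≤ m - 1 then T else 0) =
        if m = K then T else 0 := by
      intro K
      rcases lt_trichotomy m K with h | h | h
      · rw [if_neg (by omega), if_neg (by omega), if_neg (by omega), sub_zero]
      · rw [if_pos (by omega), if_neg (by omega), if_pos h, sub_zero]
      · rw [if_pos (by omega), if_pos (by omega), if_neg (by omega), sub_self]
    rw [e, hf, e2, e2, sub_self]
  set g : ℤ → B := fun m => f m - ((if N ≤ m then T else 0) - (if 0 ≤ m then T else 0)) with hg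
  have h2 : ∀ m : ℤ, g m = g (m - 1) := fun m => sub_eq_zero.1 (h1 m)
  have h3 : ∀ m : ℤ, g m = g 0 := by
    intro m
    induction m using Int.induction_on with
    | zero => rfl
    | succ k ih =>
      rw [h2 (k + 1), add_sub_cancel_right]
      exact ih
    | pred k ih =>
      rw [← h2 (-(k : ℤ))]
      exact ih
  have h4 : Tendsto g atBot (𝓝 0) := by
    refine hl.congr' ?_
    filter_upwards [eventually_lt_atBot (min 0 N)] with m hm
    have h5 := lt_of_lt_of_le hm (min_le_left _ _)
    have h6 := lt_of_lt_of_le hm (min_le_right _ _)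
    rw [hg]
    simp only
    rw [if_neg (not_le.2 h6), if_neg (not_le.2 h5), sub_zero, sub_zero]
  have h5 : Tendsto g atBot (𝓝 (g 0)) := by
    have : g = fun _ => g 0 := funext h3
    rw [this]
    exact tendsto_const_nhds
  have h6 : g m = 0 := by
    rw [h3]
    exact tendsto_nhds_unique h5 h4
  exact sub_eq_zero.1 h6

theorem QS (hZC : ZC_stmt) : QS_stmt := by
  intro B A _ _ _ _ _ _ al io u c hP a b L hL
  obtain ⟨z1, z2, z3, z4, z5, z6, z7⟩ := hZC B A al io u c hP
  set R : A := ((L⁻¹ : Aˣ) : A) with hR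
  have hone : ∀ n : ℤ, c n (1 : A) = if n = 0 then 1 else 0 := by
    intro n
    have := hP.cval n 0 1
    rw [map_one, zpow_zero, Units.val_one, one_mul] at this
    exact this
  have h1 : ∀ n : ℤ, a * c n R + b * al (c (n - 1) R) = if n = 0 then 1 else 0 := by
    intro n
    have e : (1 : A) = io a * R + io b * (((u ^ (1 : ℤ) : Aˣ) : A) * R) := by
      rw [zpow_one, ← mul_assoc, ← add_mul, ← hL]
      exact L.mul_inv.symm
    rw [← hone n, e, map_add, z2, z2, z5, zpow_one]
  have h2 : ∀ n : ℤ, c n R * (al ^ n) a + c (n - 1) R * (al ^ (n - 1)) b =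
      if n = 0 then 1 else 0 := by
    intro n
    have e : (1 : A) = R * io a + R * io b * ((u ^ (1 : ℤ) : Aˣ) : A) := by
      rw [zpow_one, mul_assoc, ← mul_add, ← hL]
      exact L.inv_mul.symm
    rw [← hone n, e, map_add, z3, z4, z3]
  refine ⟨h1, h2, ?_⟩
  have hadd : ∀ (m : ℤ) (x : B), (al ^ m) (al x) = (al ^ (m + 1)) x := by
    intro m x
    rw [zpow_add_one]
    rfl
  -- the two ways
  have hrec : ∀ m n : ℤ, c m R * (al ^ m) b * (al ^ (m + 1)) (c (n - 1) R) -
      c (m - 1) R * (al ^ (m - 1)) b * (al ^ (m - 1 + 1)) (c n R) =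
      (if n = 0 then c m R else 0) - (if m = 0 then c n R else 0) := by
    intro m n
    have e1 : c m R * (al ^ m) (a * c n R) = (if n = 0 then c m R else 0) -
        c m R * (al ^ m) b * (al ^ (m + 1)) (c (n - 1) R) := by
      have e3 : a * c n R = (if n = 0 then 1 else 0) - b * al (c (n - 1) R) :=
        eq_sub_of_add_eq (h1 n)
      rw [e3, map_sub, map_mul, hadd, mul_sub, mul_assoc]
      congr 1
      split_ifs
      · rw [map_one, mul_one]
      · rw [map_zero, mul_zero]
    have e2 : c m R * (al ^ m) (a * c n R) = (if m = 0 then c n R else 0) -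
        c (m - 1) R * (al ^ (m - 1)) b * (al ^ (m - 1 + 1)) (c n R) := by
      have e3 : c m R * (al ^ m) a = (if m = 0 then 1 else 0) - c (m - 1) R * (al ^ (m - 1)) b :=
        eq_sub_of_add_eq (h2 m)
      rw [map_mul, ← mul_assoc, e3, sub_mul, sub_add_cancel]
      congr 1
      split_ifs with hm
      · rw [hm, zpow_zero, one_mul]
        rfl
      · rw [zero_mul]
    rw [e1] at e2
    exact (sub_eq_sub_iff_sub_eq_sub.1 e2).symm
  intro m n
  set N : ℤ := m + n with hN
  let f : ℤ → B := fun k => c k R * (al ^ k) b * (al ^ (k + 1)) (c (N - k) R)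
  have hf : ∀ k, f k - f (k - 1) = (if k = N + 1 then c (N + 1) R else 0) -
      (if k = 0 then c (N + 1) R else 0) := by
    intro k
    have h3 := hrec k (N - k + 1)
    have e1 : N - k + 1 - 1 = N - k := by ring
    have e2 : N - (k - 1) = N - k + 1 := by ring
    rw [e1] at h3
    change c k R * (al ^ k) b * (al ^ (k + 1)) (c (N - k) R) -
      c (k - 1) R * (al ^ (k - 1)) b * (al ^ (k - 1 + 1)) (c (N - (k - 1)) R) = _
    rw [e2, h3]
    congr 1
    · by_cases hk : k = N + 1
      · rw [if_pos (by omega), if_pos hk, hk]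
      · rw [if_neg (by omega), if_neg hk]
    · by_cases hk : k = 0
      · rw [if_pos hk, if_pos hk, hk, sub_zero]
      · rw [if_neg hk, if_neg hk]
  have hl : Tendsto f atBot (𝓝 0) := by
    have h3 : Tendsto (fun k : ℤ => c k R) atBot (𝓝 0) := by
      refine (z7 R).mono_left ?_
      rw [Int.cofinite_eq]
      exact le_sup_left
    have h4 : Tendsto (fun k : ℤ => ‖c k R‖ * (‖b‖ * ‖R‖)) atBot (𝓝 0) := by
      have := (tendsto_zero_iff_norm_tendsto_zero.1 h3).mul_const (‖b‖ * ‖R‖)
      rwa [zero_mul] at this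
    refine squeeze_zero_norm (fun k => ?_) h4
    calc ‖f k‖ ≤ ‖c k R * (al ^ k) b‖ * ‖(al ^ (k + 1)) (c (N - k) R)‖ := norm_mul_le _ _
      _ ≤ (‖c k R‖ * ‖(al ^ k) b‖) * ‖(al ^ (k + 1)) (c (N - k) R)‖ :=
        mul_le_mul_of_nonneg_right (norm_mul_le _ _) (norm_nonneg _)
      _ = ‖c k R‖ * (‖b‖ * ‖c (N - k) R‖) := by
        rw [QS_iso al hP.isoB, QS_iso al hP.isoB, mul_assoc]
      _ ≤ ‖c k R‖ * (‖b‖ * ‖R‖) := by
        refine mul_le_mul_of_nonneg_left (mul_le_mul_of_nonneg_left (hP.cnorm _ _) (norm_nonneg _))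
          (norm_nonneg _)
  have h5 := QS_jump f (c (N + 1) R) (N + 1) hf hl m
  have e1 : N - m = n := by rw [hN]; ring
  change c m R * (al ^ m) b * (al ^ (m + 1)) (c (N - m) R) = _ at h5
  rw [e1] at h5
  rw [h5]
  rcases lt_or_ge m 0 with hm | hm <;> rcases lt_or_ge n 0 with hn | hn
  · rw [if_pos (by omega), if_neg (by omega), if_pos ⟨hm, hn⟩, sub_zero]
  · rw [if_neg (by omega), if_neg (by omega), if_neg (by omega), if_neg (by omega), sub_zero]
  · rw [if_pos (by omega), if_pos hm, if_neg (by omega), if_neg (by omega), sub_self]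
  · rw [if_neg (by omega), if_pos hm, if_neg (by omega), if_pos ⟨hm, hn⟩, zero_sub]

end Pool.Agent.PV
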