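import Pool.Agent.helper53.PV.SpecF

/-!
# Project pv, row FEB: existence of a locally constant function with dense cluster values
-/

set_option autoImplicit false

open scoped Topology
open MeasureTheory Filter

namespace Pool.Agent.PV

open Pool.Agent.CZ

theorem FEB (hFOF : FOF_stmt) (hFDS : FDS_stmt) (hFCP : FCP_stmt) : FEB_stmt := by
  intro X₀ Y _ _ _ _ _ _ _ _ _ α₀ hmin x₀
  classical
  have : T2Space X₀ := inferInstance
  have hoff := hFOF X₀ α₀ hmin x₀
  obtain ⟨y, hy⟩ := hFDS Y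
  obtain ⟨U, hU0, hU, hW⟩ := hFCP X₀ x₀ (by
    intro U hU
    obtain ⟨V, hVU, hV, hxV⟩ := mem_nhds_iff.1 hU
    obtain ⟨z, hz, hn⟩ := hoff V hV ⟨x₀, hxV⟩
    refine ⟨z, hVU hz, ?_⟩
    intro h
    exact hn 0 (by rw [h]; rfl))
  have hanti : ∀ i j, i ≤ j → U j ⊆ U i := by
    intro i j hij
    induction j, hij using Nat.le_induction with
    | base => exact subset_rfl
    | succ j _ ih => exact ((hU j).2.2.1).trans ih
  let f : X₀ → Y := fun x => if h : ∃ j, x ∉ U j then y (Nat.find h - 1) else y 0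
  have hf : ∀ (j : ℕ) (x : X₀), x ∈ U j → x ∉ U (j + 1) → f x = y j := by
    intro j x h1 h2
    have h : ∃ j, x ∉ U j := ⟨j + 1, h2⟩
    have h3 : Nat.find h = j + 1 := by
      rw [Nat.find_eq_iff]
      refine ⟨h2, ?_⟩
      intro i hi
      rw [not_not]
      exact hanti i j (by omega) h1
    change (if h : ∃ j, x ∉ U j then y (Nat.find h - 1) else y 0) = y j
    rw [dif_pos h, h3, Nat.add_sub_cancel]
  have hex : ∀ x, x ≠ x₀ → ∃ j, x ∈ U j ∧ x ∉ U (j + 1) := by
    intro x hx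
    obtain ⟨j, hj⟩ := hW {x}ᶜ (isOpen_compl_singleton.mem_nhds (by
      rw [Set.mem_compl_iff, Set.mem_singleton_iff]
      exact hx.symm))
    have h : ∃ j, x ∉ U j := ⟨j, fun h => hj h rfl⟩
    have h1 := Nat.find_spec h
    have h2 : Nat.find h ≠ 0 := by
      intro h0
      rw [h0, hU0] at h1
      exact h1 (Set.mem_univ _)
    obtain ⟨i, hi⟩ := Nat.exists_eq_succ_of_ne_zero h2
    refine ⟨i, ?_, ?_⟩
    · have := Nat.find_min h (m := i) (by omega)
      rwa [not_not] at this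
    · rw [hi] at h1
      exact h1
  have hop : ∀ j, IsOpen (U j \ U (j + 1)) := by
    intro j
    exact (hU j).1.isOpen.sdiff (hU (j + 1)).1.isClosed
  have hloc : LocC x₀ f := by
    intro x hx
    obtain ⟨j, h1, h2⟩ := hex x hx
    filter_upwards [(hop j).mem_nhds ⟨h1, h2⟩] with x' hx'
    rw [hf j x' hx'.1 hx'.2, hf j x h1 h2]
  refine ⟨f, ⟨?_, ?_⟩, hloc⟩
  · intro x hx
    have h1 : f =ᶠ[𝓝 x] fun _ => f x := hloc x hx
    exact (continuousAt_const.congr h1.symm).continuousWithinAt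
  · intro z U' hU' V hV
    obtain ⟨N, hN⟩ := hW U' hU'
    obtain ⟨j, hj, hjV⟩ := hy z V hV N
    obtain ⟨x, hx, hn⟩ := hoff (U j \ U (j + 1)) (hop j) (hU j).2.2.2
    refine ⟨x, hN (hanti N j hj hx.1), hn, ?_⟩
    rw [hf j x hx.1 hx.2]
    exact hjV

end Pool.Agent.PV
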